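import Pool.Agent.W2helper64.RK.SumXY

set_option autoImplicit false

/-!
# Sums `x + y = n` with `x + n y` and `x ^ 2 + n y ^ 2` in the random set of Banks, Ford and Tao

For every prime `p` a residue class `a p` modulo `p` is chosen uniformly and independently. The random
set `R` consists of the natural numbers `n ≥ e ^ 2` which avoid the class `a p` for every prime `p` with
`∏_(q ≤ p) (1 - 1 / q) ≥ 1 / log n`; this is the random sieve model for the primes of Banks, Ford and
Tao, in which the classes `0 mod p` of the sieve of Eratosthenes are replaced by random ones.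

The class `0` modulo `p` never contains one of the numbers `x + n y`, `x ^ 2 + n y ^ 2` for all `x + y = n`
(Sun's question), but the class `a p` may: we say that `n` is obstructed if this happens for some prime
`p`. We prove that almost surely for every large `n` which is not obstructed there are `x, y ≥ 1` with
`x + y = n` and `x + n y, x ^ 2 + n y ^ 2 ∈ R`, and that `y ≤ (log n) ^ C` can be achieved with an absolute
constant `C`.
-/

namespace Pool.Agent.Results.MP_5e9b96_nt.RandomSieveSums

open Filter MeasureTheory Topology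

/-- the product `V y = ∏_(p ≤ y, p prime) (1 - 1 / p)` -/
noncomputable def V (y : ℕ) : ℝ := ∏ p ∈ (Finset.Icc 1 y).filter Nat.Prime, (1 - 1 / (p : ℝ))

/-- the random set: all `n ≥ e ^ 2` outside the chosen class `a p` for every prime `p` with
`V p ≥ 1 / log n` -/
def R (a : (p : Nat.Primes) → ZMod (p : ℕ)) : Set ℕ :=
  {n | Real.exp 2 ≤ n ∧ ∀ p : Nat.Primes, 1 ≤ V (p : ℕ) * Real.log n → ((n : ℕ) : ZMod (p : ℕ)) ≠ a p}

/-- the chosen classes `a p`, `p` prime, are independent and uniform modulo `p` -/
noncomputable def law : Measure ((p : Nat.Primes) → ZMod (p : ℕ)) :=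
  Measure.infinitePi fun p : Nat.Primes => ProbabilityTheory.uniformOn (Set.univ : Set (ZMod (p : ℕ)))

/-- `n` is not obstructed: for every prime `p` there are integers `x`, `y` with `x + y = n` such that
neither `x + n y` nor `x ^ 2 + n y ^ 2` lies in the class `a p` -/
def Free (a : (p : Nat.Primes) → ZMod (p : ℕ)) (n : ℕ) : Prop :=
  ∀ p : Nat.Primes, ∃ x y : ℤ, x + y = n ∧ ((x + n * y : ℤ) : ZMod (p : ℕ)) ≠ a p ∧
    ((x ^ 2 + n * y ^ 2 : ℤ) : ZMod (p : ℕ)) ≠ a p

/-- There is a constant `C` such that almost surely for every large `n` which is not obstructed there are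
`x, y ≥ 1` with `x + y = n`, `y ≤ (log n) ^ C` and `x + n y, x ^ 2 + n y ^ 2 ∈ R`. -/
theorem result : ∃ C : ℝ, ∀ᵐ a ∂law, ∀ᶠ n : ℕ in atTop, Free a n →
    ∃ x y : ℕ, 1 ≤ x ∧ 1 ≤ y ∧ (y : ℝ) ≤ Real.log n ^ C ∧ x + y = n ∧
      x + n * y ∈ R a ∧ x ^ 2 + n * y ^ 2 ∈ R a := by
  obtain ⟨C, -, h⟩ := Pool.Agent.W2helper64.RK.ae_sum
  refine ⟨C, ?_⟩
  show ∀ᵐ a ∂Pool.Agent.W2helper64.RS.law, _
  filter_upwards [h] with a ha
  filter_upwards [ha] with n hn hfree
  obtain ⟨x, y, h1, h2, h3, h4, h5, h6⟩ := hn (by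
    intro p hobs
    obtain ⟨x, y, hxy, k1, k2⟩ := hfree p
    have hx : (x : ZMod (p : ℕ)) = (n : ZMod (p : ℕ)) - (y : ZMod (p : ℕ)) := by
      have e : x = (n : ℤ) - y := by linarith
      rw [e]
      push_cast
      ring
    rcases hobs (y : ZMod (p : ℕ)) with e | e
    · apply k1
      push_cast
      rw [hx]
      exact e
    · apply k2
      push_cast
      rw [hx]
      exact e)
  exact ⟨x, y, h1, h2, h3, h4, h5, h6⟩

end Pool.Agent.Results.MP_5e9b96_nt.RandomSieveSums
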